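import Pool.Agent.Lib_helper57.YF.S

/-!
# MP_675993_lc: Turing completeness and completeness with few rounds of queries

If every language that is `≤_T^P`-complete for `NP` is complete for `NP` under polynomial time
Turing reductions with `|x| ^ (o(1))` rounds of nonadaptive queries (in particular: if it is
`≤_tt^P`-complete, or `≤_m^P`-complete, the negated form of Q1), then `E^NP` is contained in
`BPTIME(2 ^ (2 ^ (ε n)))` for every `ε > 0`.  The theorem holds relative to every oracle `O`; the
oracle `O = fun _ => false` gives the classical statement.

Proof idea.  Let `R` be a verifier for tally inputs `0^m` whose least witnesses determine `L`: the
value `L x` can be read in the least witness of `0^m`, `m < 2 ^ (|x| + 1)` the number of `x` (the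
least accepting transcript of a machine with an `NP` oracle is the right one).  Replace `R` by the
nested verifier: a witness for `0^m` is a sequence of blocks for `0, ..., m`, with a fixed number of
bits for each block, and each block is a witness of `R` or `none`.  So the least witness of `0^m`
consists of the first bits of one real number `ρ`, and the question whether `0^m` has a witness
`< u` is the question whether `ρ < u / 2 ^ (ℓ m)`.  Call a list `ws` correct if its `m`-th entry is
the least witness of `0^m`, for all `m < |ws|`.  Let `K` be `≤_m^P`-complete, and for a constant
`r > 1 / ε` let `C` be the set of all `(1, 0^m, u)` such that `0^m` has a witness smaller than `u`,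
and all `(2, x, ws)` with `|ws| ≥ |x| ^ r` such that `ws` is not correct (some entry is not a
witness, or there is a smaller one) or `x ∈ K`.  `C` is `≤_T^P`-complete for `NP`: find the correct
list by binary search, then ask `(2, x, ws)`.  So `K` reduces to `C` with few rounds of queries.

The least witness of `0^m` is found by binary search.  Let `0^m` have a witness `< u`.  Take random
weights for the bits of the witnesses; by the isolation lemma of Mulmuley, Vazirani and Vazirani the
witness `< u` of least weight is unique, and its bits are given by the answers to polynomially many
questions to `K`.  The reductions of all these questions to `C` are simulated round by round.  In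
each round all comparisons that occur (in the queries of type 1 and in the lists of the queries of
type 2) compare the same number `ρ` with thresholds, so their answers are determined by the number
of true comparisons: polynomially many possibilities for each round, and at most
`2 ^ (m ^ (1 / r))` for all rounds together; all are tried.  For the right numbers there are two
cases.  If a query `(2, x, ws)` with `ws` correct and `|ws| > m` occurs, then its `m`-th entry is the
least witness of `0^m`.  Otherwise `|x| ^ r ≤ |ws| ≤ m` for all queries `(2, x, ws)` with `ws`
correct, so that all queries can be answered with an exhaustive search in time `2 ^ (m ^ (1 / r))`,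
the answers of all rounds are right, and the witness of least weight is found.  All candidates are
verified, and if a witness `< u` is found then the binary search goes on below `u`.  The same random
weights are used for all steps of the binary search.

Definitions: machines, `Halts`, `Accepts`, `InNP`, `TuringComplete` are in
`Lib_helper74/CKF/Defs.lean`, `InENP` is in `Lib_helper74/NF/ClassesE.lean`, `code` is in
`Lib_helper74/KY/ClassesB.lean`, `FewRoundsComplete` and `InBPTIMEdouble` are in
`Lib_helper57/YF/Classes.lean`.  The special cases are `fewRoundsComplete_of_tt` and
`fewRoundsComplete_of_m` in `Lib_helper57/YF/S.lean`.
-/

set_option autoImplicit false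

namespace Pool.Agent.Results.MP_675993_lc.CollapseToFewRounds

open Pool.Agent.CK

theorem result (O : Lang) (hneg : ∀ C, TuringComplete O C → FewRoundsComplete O C)
    (L : Lang) (hL : InENP O L) (ε : ℝ) (hε : 0 < ε) : InBPTIMEdouble O ε L :=
  Pool.Agent.CKP.bptime_fr hneg ε L hε hL

end Pool.Agent.Results.MP_675993_lc.CollapseToFewRounds
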